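import Mathlib

/-!
# Power series with nonvanishing derivative and boundary curve of positive area: definitions (helper30)
-/

set_option autoImplicit false

namespace Pool.Agent.W5h30.PA

open Finset Polynomial

/-- the polynomials `∏_{m < n} (1 + z ^ λ_m) ^ p_m` -/
noncomputable def FF (p lam : ℕ → ℕ) (n : ℕ) : ℝ[X] := ∏ m ∈ range n, (1 + X ^ (lam m)) ^ (p m)

/-- the coefficients of the primitives -/
noncomputable def cf (p lam : ℕ → ℕ) (n k : ℕ) : ℝ := (FF p lam n).coeff k / ((k : ℝ) + 1)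

/-- the primitives -/
noncomputable def ff (p lam : ℕ → ℕ) (n : ℕ) (z : ℂ) : ℂ :=
  ∑ k ∈ range ((FF p lam n).natDegree + 1), ((cf p lam n k : ℝ) : ℂ) * z ^ (k + 1)

/-- the exponents -/
def pp (n : ℕ) : ℕ := 2 ^ (n + 12)

/-- `∑_{m < n} p_m` -/
def aa (n : ℕ) : ℕ := ∑ m ∈ range n, pp m

/-- the frequencies -/
def ll (n : ℕ) : ℕ := 2 ^ (aa n + pp n + 1 - (n + 12)) * (n + 8) ^ 2

/-- Lemma A (limit of the series) -/
def LemmaA : Prop := ∀ (p lam : ℕ → ℕ), (∀ n, ∑ m ∈ range n, p m * lam m < lam n) →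
  (∀ m, p m ≤ lam m ∧ m ≤ lam m) → ∀ S : ℝ,
  (∀ n, ∑ k ∈ range ((FF p lam n).natDegree + 1), cf p lam n k ≤ S) →
  ∃ a : ℕ → ℂ, Summable (fun n => ‖a n‖) ∧
    (∀ z : ℂ, ‖z‖ < 1 → deriv (fun w : ℂ => ∑' n, a n * w ^ n) z ≠ 0) ∧
    (∀ ε : ℝ, 0 < ε → ∃ N : ℕ, ∀ n, N ≤ n → ∀ z : ℂ, ‖z‖ ≤ 1 →
      ‖(∑' k, a k * z ^ k) - ff p lam n z‖ ≤ ε)

/-- Lemma C (the parameters) -/
def LemmaC : Prop :=
  (∀ n, (∑ m ∈ range n, pp m * ll m + 1) * (2 ^ (n + 40) * pp n) ≤ ll n) ∧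
  (∀ m, pp m ≤ ll m ∧ m ≤ ll m) ∧
  (∀ n, ∑ k ∈ range ((FF pp ll n).natDegree + 1), cf pp ll n k ≤ 10)

end Pool.Agent.W5h30.PA
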