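import Mathlib
import Pool.Agent.W5h30.PA.Defs

/-!
# Further statements for the construction (helper30)
-/

set_option autoImplicit false

namespace Pool.Agent.W5h30.PA

open Finset
open scoped Real

/-- the products as functions -/
noncomputable def PF (p lam : ℕ → ℕ) (n : ℕ) (z : ℂ) : ℂ :=
  ∏ m ∈ range n, (1 + z ^ (lam m)) ^ (p m)

/-- Lemma V (elementary facts on the polynomials) -/
def LemmaV : Prop := ∀ (p lam : ℕ → ℕ) (n : ℕ),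
  (∀ z : ℂ, HasDerivAt (ff p lam n) (PF p lam n z) z) ∧
  (∀ z : ℂ, ‖z‖ ≤ 1 → ‖PF p lam n z‖ ≤ 2 ^ (∑ m ∈ range n, p m)) ∧
  (∀ z w : ℂ, ‖z‖ ≤ 1 → ‖w‖ ≤ 1 → ‖PF p lam n z - PF p lam n w‖ ≤
    ((∑ m ∈ range n, p m * lam m : ℕ) : ℝ) * 2 ^ (∑ m ∈ range n, p m) * ‖z - w‖) ∧
  (∀ z : ℂ, ‖z‖ = 1 → 1 ≤ lam n → z ^ (lam n) = -1 →
    ‖ff p lam (n + 1) z - ff p lam n z‖ ≤ 2 ^ (∑ m ∈ range n, p m) * (p n : ℝ) / (lam n : ℝ))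

/-- Lemma S (the analytic step) -/
def LemmaS : Prop := ∀ (p lam : ℕ) (A D t0 : ℝ) (h : ℝ → ℂ) (ω : ℂ),
  4096 ≤ p → 0 < A → 1 ≤ D → 2000 * D * p ≤ (lam : ℝ) → Continuous h → (∀ s, ‖h s‖ ≤ A) →
  (∀ s s', ‖h s - h s'‖ ≤ D * A * |s - s'|) → ‖ω‖ = 1 → h t0 ≠ 0 →
  ∃ ts t : ℝ, Complex.exp (((lam : ℝ) * ts : ℝ) * Complex.I) = -1 ∧ |ts - t0| ≤ 2 * π / lam ∧
    |t - t0| ≤ 4 * π / lam ∧
    ‖(∫ s in ts..t, h s * (1 + Complex.exp (((lam : ℝ) * s : ℝ) * Complex.I)) ^ p) -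
      ((‖h t0‖ * (2 ^ (p + 1) / (p * lam)) : ℝ) : ℂ) * ω‖ ≤ A * (2 ^ (p + 1) / (p * lam)) / 8 ∧
    2 ^ p * (1 - 10 / (p : ℝ)) ≤ ‖(1 + Complex.exp (((lam : ℝ) * t : ℝ) * Complex.I)) ^ p‖

end Pool.Agent.W5h30.PA
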