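import Mathlib

/-!
# The kernel `(1 + exp (i φ)) ^ p` (helper30)
-/

set_option autoImplicit false

namespace Pool.Agent.W5h30.PA

open Complex MeasureTheory intervalIntegral
open scoped Real

lemma norm_le2 (φ : ℝ) (h : |φ| ≤ π) :
    ‖1 + exp (φ * I)‖ ≤ 2 * Real.exp (-(φ ^ 2 / (2 * π ^ 2))) := by
  have h1 : ‖1 + exp (φ * I)‖ ^ 2 = 2 + 2 * Real.cos φ := by
    rw [exp_mul_I, ← ofReal_cos, ← ofReal_sin, ← normSq_eq_norm_sq, normSq_apply]
    simp only [add_re, one_re, ofReal_re, mul_re, I_re, mul_zero, ofReal_im, I_im, mul_one,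
      sub_self, add_zero, add_im, one_im, mul_im, zero_add]
    have := Real.sin_sq_add_cos_sq φ
    nlinarith
  have h2 := Real.cos_le_one_sub_mul_cos_sq h
  have hpi : 0 < π := Real.pi_pos
  apply le_of_sq_le_sq _ (by positivity)
  rw [h1, mul_pow, ← Real.exp_nat_mul]
  have h3 : ((2 : ℕ) : ℝ) * -(φ ^ 2 / (2 * π ^ 2)) = -(φ ^ 2 / π ^ 2) := by
    field_simp
    ring
  rw [h3]
  have h4 := Real.add_one_le_exp (-(φ ^ 2 / π ^ 2))
  have h5 : 2 / π ^ 2 * φ ^ 2 = 2 * (φ ^ 2 / π ^ 2) := by ring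
  rw [h5] at h2
  nlinarith

lemma int_norm (p : ℕ) (hp : 4096 ≤ p) :
    (∫ φ in (-π)..π, ‖1 + exp (φ * I)‖ ^ p) ≤ 2 ^ p / 8 := by
  have hpi : 0 < π := Real.pi_pos
  have hp' : (4096 : ℝ) ≤ p := by exact_mod_cast hp
  have hint : ∀ b : ℝ, 0 < b → Integrable (fun φ : ℝ => Real.exp (-b * φ ^ 2)) :=
    fun b hb => integrable_exp_neg_mul_sq hb
  set b : ℝ := p / (2 * π ^ 2) with hb
  have hbpos : 0 < b := by positivity
  have h1 : (∫ φ in (-π)..π, ‖1 + exp (φ * I)‖ ^ p) ≤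
      ∫ φ in (-π)..π, 2 ^ p * Real.exp (-b * φ ^ 2) := by
    apply intervalIntegral.integral_mono_on (by linarith)
    · exact Continuous.intervalIntegrable (by fun_prop) _ _
    · exact Continuous.intervalIntegrable (by fun_prop) _ _
    · intro φ hφ
      have h := norm_le2 φ (abs_le.2 hφ)
      calc ‖1 + exp (φ * I)‖ ^ p ≤ (2 * Real.exp (-(φ ^ 2 / (2 * π ^ 2)))) ^ p :=
            pow_le_pow_left₀ (norm_nonneg _) h p
        _ = 2 ^ p * Real.exp (-b * φ ^ 2) := by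
            rw [mul_pow, ← Real.exp_nat_mul]
            congr 2
            rw [hb]
            field_simp
  have h2 : (∫ φ in (-π)..π, 2 ^ p * Real.exp (-b * φ ^ 2)) ≤ 2 ^ p * √(π / b) := by
    rw [intervalIntegral.integral_const_mul]
    gcongr
    rw [← integral_gaussian b, intervalIntegral.integral_of_le (by linarith)]
    exact setIntegral_le_integral (hint b hbpos) (Filter.Eventually.of_forall fun x => (Real.exp_pos _).le)
  have h3 : √(π / b) ≤ 1 / 8 := by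
    apply Real.sqrt_le_iff.2 ⟨by norm_num, ?_⟩
    rw [hb, div_le_iff₀ (by positivity)]
    have h4 : π < 3.15 := Real.pi_lt_d2
    have h5 : π ^ 3 < 32 := by
      calc π ^ 3 < 3.15 ^ 3 := by gcongr
        _ < 32 := by norm_num
    have h6 : (1 / 8 : ℝ) ^ 2 * (p / (2 * π ^ 2)) = p / (128 * π ^ 2) := by
      field_simp
      norm_num
    rw [h6, le_div_iff₀ (by positivity)]
    nlinarith
  calc _ ≤ _ := h1
    _ ≤ _ := h2
    _ ≤ 2 ^ p * (1 / 8) := by gcongr
    _ = 2 ^ p / 8 := by ring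

lemma lemB (p : ℕ) (hp : 4096 ≤ p) (θ : ℝ) (hθ : |θ| ≤ π) :
    ‖(∫ φ in (-π)..θ, (1 + exp (φ * I)) ^ p) - (1 + exp (θ * I)) ^ (p + 1) * exp (-(θ * I)) / (I * p)‖
      ≤ 2 ^ p / 8 / p := by
  have hpi : 0 < π := Real.pi_pos
  have hp0 : (0 : ℝ) < p := by
    have : 0 < p := by omega
    exact_mod_cast this
  have hp0' : (p : ℂ) ≠ 0 := by exact_mod_cast hp0.ne'
  set V : ℝ → ℂ := fun φ => (1 + exp (φ * I)) ^ (p + 1) * exp (-(φ * I)) / (I * p) with hV
  have hder : ∀ φ : ℝ, HasDerivAt V ((1 + exp (φ * I)) ^ p - (1 + exp (φ * I)) ^ p * exp (-(φ * I)) / p) φ := by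
    intro φ
    have h0 : HasDerivAt (fun φ : ℝ => (φ : ℂ) * I) (1 * I) φ := (hasDerivAt_id φ).ofReal_comp.mul_const I
    have h1 : HasDerivAt (fun φ : ℝ => 1 + exp (φ * I)) (exp (φ * I) * (1 * I)) φ := (h0.cexp).const_add 1
    have h2 : HasDerivAt (fun φ : ℝ => exp (-(φ * I))) (exp (-(φ * I)) * (-(1 * I))) φ := (h0.neg).cexp
    have h3 := ((h1.pow (p + 1)).mul h2).div_const (I * p)
    have he : exp (φ * I) * exp (-(φ * I)) = 1 := by rw [← exp_add]; simp
    have hs : p + 1 - 1 = p := Nat.add_sub_cancel p 1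
    refine HasDerivAt.congr_deriv h3 ?_
    rw [hs]
    simp only [Pi.pow_apply]
    push_cast
    field_simp
    rw [pow_succ]
    linear_combination ((1 + exp (φ * I)) ^ p * (p : ℂ)) * he
  have hcont : Continuous fun φ : ℝ => (1 + exp (φ * I)) ^ p - (1 + exp (φ * I)) ^ p * exp (-(φ * I)) / p := by
    fun_prop
  have hFTC := integral_eq_sub_of_hasDerivAt (fun φ _ => hder φ) (hcont.intervalIntegrable (-π) θ)
  have hV0 : V (-π) = 0 := by
    simp only [hV]
    have : exp (((-π : ℝ) : ℂ) * I) = -1 := by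
      rw [ofReal_neg, neg_mul, exp_neg, exp_pi_mul_I]
      norm_num
    rw [this]
    simp
  rw [hV0, sub_zero, intervalIntegral.integral_sub (Continuous.intervalIntegrable (by fun_prop) _ _)
    (Continuous.intervalIntegrable (by fun_prop) _ _)] at hFTC
  have hEq : (∫ φ in (-π)..θ, (1 + exp (φ * I)) ^ p) - V θ =
      ∫ φ in (-π)..θ, (1 + exp (φ * I)) ^ p * exp (-(φ * I)) / p := by
    rw [← hFTC]
    ring
  change ‖(∫ φ in (-π)..θ, (1 + exp (φ * I)) ^ p) - V θ‖ ≤ _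
  rw [hEq]
  have hle : -π ≤ θ := (abs_le.1 hθ).1
  have hle' : θ ≤ π := (abs_le.1 hθ).2
  calc ‖∫ φ in (-π)..θ, (1 + exp (φ * I)) ^ p * exp (-(φ * I)) / p‖
      ≤ ∫ φ in (-π)..θ, ‖(1 + exp (φ * I)) ^ p * exp (-(φ * I)) / p‖ :=
        intervalIntegral.norm_integral_le_integral_norm hle
    _ = ∫ φ in (-π)..θ, ‖1 + exp (φ * I)‖ ^ p / p := by
        congr 1
        ext φ
        rw [norm_div, norm_mul, norm_pow]
        have : ‖exp (-(φ * I))‖ = 1 := by
          rw [← neg_mul, ← ofReal_neg, norm_exp_ofReal_mul_I]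
        rw [this, mul_one]
        simp
    _ ≤ ∫ φ in (-π)..π, ‖1 + exp (φ * I)‖ ^ p / p := by
        have hi : ∀ a b : ℝ, IntervalIntegrable (fun φ : ℝ => ‖1 + exp (φ * I)‖ ^ p / p) volume a b :=
          fun a b => Continuous.intervalIntegrable (by fun_prop) a b
        rw [← intervalIntegral.integral_add_adjacent_intervals (hi (-π) θ) (hi θ π)]
        have : 0 ≤ ∫ φ in θ..π, ‖1 + exp (φ * I)‖ ^ p / (p : ℝ) :=
          intervalIntegral.integral_nonneg hle' (fun u _ => by positivity)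
        linarith
    _ = (∫ φ in (-π)..π, ‖1 + exp (φ * I)‖ ^ p) / p := by
        rw [intervalIntegral.integral_div]
    _ ≤ 2 ^ p / 8 / p := by
        gcongr
        exact int_norm p hp

end Pool.Agent.W5h30.PA
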