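import Pool.Agent.W5h30.PA.Defs

/-!
# Lemma A: the limit power series
-/

set_option autoImplicit false

namespace Pool.Agent.W5h30.PA

open Finset Polynomial Filter Topology

/-- all coefficients are nonnegative -/
def NN (f : ℝ[X]) : Prop := ∀ k, 0 ≤ f.coeff k

theorem NN.mul {f g : ℝ[X]} (hf : NN f) (hg : NN g) : NN (f * g) := by
  intro k
  rw [coeff_mul]
  exact sum_nonneg fun x _ => mul_nonneg (hf _) (hg _)

theorem NN.add {f g : ℝ[X]} (hf : NN f) (hg : NN g) : NN (f + g) := by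
  intro k
  rw [coeff_add]
  exact add_nonneg (hf _) (hg _)

theorem NN.one : NN (1 : ℝ[X]) := by
  intro k
  rw [coeff_one]
  split_ifs <;> norm_num

theorem NN.Xpow (L : ℕ) : NN (X ^ L : ℝ[X]) := by
  intro k
  rw [coeff_X_pow]
  split_ifs <;> norm_num

theorem pow_form (L P : ℕ) : ∃ Q : ℝ[X], NN Q ∧ (1 + X ^ L) ^ P = 1 + X ^ L * Q := by
  induction P with
  | zero => exact ⟨0, fun k => by simp, by simp⟩
  | succ P ih =>
    obtain ⟨Q, hQ, h⟩ := ih
    refine ⟨1 + Q + Q * X ^ L, (NN.one.add hQ).add (hQ.mul (NN.Xpow L)), ?_⟩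
    rw [pow_succ, h]
    ring

theorem FF_nn (p lam : ℕ → ℕ) (n : ℕ) : NN (FF p lam n) := by
  induction n with
  | zero => simpa [FF] using NN.one
  | succ n ih =>
    have : FF p lam (n + 1) = FF p lam n * (1 + X ^ (lam n)) ^ (p n) := prod_range_succ _ _
    rw [this]
    refine ih.mul ?_
    obtain ⟨Q, hQ, h⟩ := pow_form (lam n) (p n)
    rw [h]
    exact NN.one.add ((NN.Xpow _).mul hQ)

theorem coeff_succ (p lam : ℕ → ℕ) (n k : ℕ) :
    (FF p lam n).coeff k ≤ (FF p lam (n + 1)).coeff k ∧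
      (k < lam n → (FF p lam (n + 1)).coeff k = (FF p lam n).coeff k) := by
  have : FF p lam (n + 1) = FF p lam n * (1 + X ^ (lam n)) ^ (p n) := prod_range_succ _ _
  obtain ⟨Q, hQ, h⟩ := pow_form (lam n) (p n)
  have e : FF p lam (n + 1) = FF p lam n + X ^ (lam n) * (FF p lam n * Q) := by
    rw [this, h]; ring
  rw [e, coeff_add, coeff_X_pow_mul']
  constructor
  · split_ifs
    · have := ((FF_nn p lam n).mul hQ) (k - lam n)
      linarith
    · linarith
  · intro hk
    rw [if_neg (by omega), add_zero]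

/-- the stable coefficients -/
noncomputable def ph (p lam : ℕ → ℕ) (k : ℕ) : ℝ := (FF p lam (k + 1)).coeff k

theorem ph_nonneg (p lam : ℕ → ℕ) (k : ℕ) : 0 ≤ ph p lam k := FF_nn p lam _ k

theorem coeff_stable {p lam : ℕ → ℕ} (hl : ∀ m, m ≤ lam m) {n k : ℕ} (h : k + 1 ≤ n) :
    (FF p lam n).coeff k = ph p lam k := by
  induction n, h using Nat.le_induction with
  | base => rfl
  | succ n hn ih =>
    rw [(coeff_succ p lam n k).2 (lt_of_lt_of_le (by omega) (hl n)), ih]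

theorem coeff_mono (p lam : ℕ → ℕ) (k : ℕ) : Monotone fun n => (FF p lam n).coeff k :=
  monotone_nat_of_le_succ fun n => (coeff_succ p lam n k).1

theorem coeff_le_ph {p lam : ℕ → ℕ} (hl : ∀ m, m ≤ lam m) (n k : ℕ) :
    (FF p lam n).coeff k ≤ ph p lam k := by
  rcases le_total n (k + 1) with h | h
  · exact coeff_mono p lam k h
  · exact (coeff_stable hl h).le

theorem cf_nonneg (p lam : ℕ → ℕ) (n k : ℕ) : 0 ≤ cf p lam n k :=
  div_nonneg (FF_nn p lam n k) (by positivity)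

/-- the coefficients of the limit -/
noncomputable def bb (p lam : ℕ → ℕ) (k : ℕ) : ℝ := ph p lam k / ((k : ℝ) + 1)

theorem bb_nonneg (p lam : ℕ → ℕ) (k : ℕ) : 0 ≤ bb p lam k :=
  div_nonneg (ph_nonneg p lam k) (by positivity)

theorem cf_le {p lam : ℕ → ℕ} (hl : ∀ m, m ≤ lam m) (n k : ℕ) : cf p lam n k ≤ bb p lam k :=
  div_le_div_of_nonneg_right (coeff_le_ph hl n k) (by positivity)

theorem cf_eq {p lam : ℕ → ℕ} (hl : ∀ m, m ≤ lam m) {n k : ℕ} (h : k + 1 ≤ n) :
    cf p lam n k = bb p lam k := by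
  unfold cf bb
  rw [coeff_stable hl h]

theorem cf_zero (p lam : ℕ → ℕ) {n k : ℕ} (h : (FF p lam n).natDegree < k) :
    cf p lam n k = 0 := by
  unfold cf
  rw [coeff_eq_zero_of_natDegree_lt h, zero_div]

theorem sum_bb_le {p lam : ℕ → ℕ} (hl : ∀ m, m ≤ lam m) {S : ℝ}
    (hS : ∀ n, ∑ k ∈ range ((FF p lam n).natDegree + 1), cf p lam n k ≤ S) (K : ℕ) :
    ∑ k ∈ range K, bb p lam k ≤ S := by
  have h1 : ∑ k ∈ range K, bb p lam k = ∑ k ∈ range K, cf p lam K k :=
    sum_congr rfl fun k hk => (cf_eq hl (by have := mem_range.1 hk; omega)).symm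
  have h2 : ∑ k ∈ range K, cf p lam K k ≤
      ∑ k ∈ range (max K ((FF p lam K).natDegree + 1)), cf p lam K k :=
    sum_le_sum_of_subset_of_nonneg (range_mono (le_max_left _ _)) fun _ _ _ => cf_nonneg _ _ _ _
  have h3 : ∑ k ∈ range ((FF p lam K).natDegree + 1), cf p lam K k =
      ∑ k ∈ range (max K ((FF p lam K).natDegree + 1)), cf p lam K k := by
    apply sum_subset (range_mono (le_max_right _ _))
    intro k _ hk
    apply cf_zero
    rw [mem_range, not_lt] at hk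
    omega
  rw [h1]
  exact h2.trans (h3 ▸ hS K)

theorem summable_bb {p lam : ℕ → ℕ} (hl : ∀ m, m ≤ lam m) {S : ℝ}
    (hS : ∀ n, ∑ k ∈ range ((FF p lam n).natDegree + 1), cf p lam n k ≤ S) :
    Summable (bb p lam) :=
  summable_of_sum_range_le (bb_nonneg p lam) (sum_bb_le hl hS)

/-- the coefficients of the limit series -/
noncomputable def ac (p lam : ℕ → ℕ) : ℕ → ℂ
  | 0 => 0
  | k + 1 => ((bb p lam k : ℝ) : ℂ)

theorem summable_ac {p lam : ℕ → ℕ} (h : Summable (bb p lam)) :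
    Summable fun n => ‖ac p lam n‖ := by
  rw [← summable_nat_add_iff 1]
  refine h.congr fun k => ?_
  simp only [ac]
  rw [Complex.norm_real, Real.norm_of_nonneg (bb_nonneg _ _ _)]

theorem summable_bz {b : ℕ → ℝ} (hb0 : ∀ k, 0 ≤ b k) (h : Summable b) {z : ℂ} (hz : ‖z‖ ≤ 1) :
    Summable fun k => ((b k : ℝ) : ℂ) * z ^ (k + 1) := by
  refine Summable.of_norm_bounded h fun k => ?_
  rw [norm_mul, Complex.norm_real, Real.norm_of_nonneg (hb0 k), norm_pow]
  exact mul_le_of_le_one_right (hb0 k) (pow_le_one₀ (norm_nonneg _) hz)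

theorem tsum_ac {p lam : ℕ → ℕ} (h : Summable (bb p lam)) {z : ℂ} (hz : ‖z‖ ≤ 1) :
    ∑' k, ac p lam k * z ^ k = ∑' k, ((bb p lam k : ℝ) : ℂ) * z ^ (k + 1) := by
  have hs : Summable fun k => ac p lam k * z ^ k := by
    rw [← summable_nat_add_iff 1]
    exact summable_bz (bb_nonneg p lam) h hz
  rw [hs.tsum_eq_zero_add]
  simp [ac]

theorem ff_eq (p lam : ℕ → ℕ) (n : ℕ) (z : ℂ) :
    ff p lam n z = ∑' k, ((cf p lam n k : ℝ) : ℂ) * z ^ (k + 1) := by
  unfold ff
  rw [tsum_eq_sum (s := range ((FF p lam n).natDegree + 1))]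
  intro k hk
  rw [mem_range, not_lt] at hk
  rw [cf_zero p lam (by omega), Complex.ofReal_zero, zero_mul]

theorem unif {p lam : ℕ → ℕ} (hl : ∀ m, m ≤ lam m) (h : Summable (bb p lam)) (n : ℕ) {z : ℂ}
    (hz : ‖z‖ ≤ 1) :
    ‖(∑' k, ac p lam k * z ^ k) - ff p lam n z‖ ≤ ∑' k, bb p lam (k + n) := by
  have hc : Summable (cf p lam n) :=
    Summable.of_nonneg_of_le (cf_nonneg p lam n) (cf_le hl n) h
  have he0 : ∀ k, 0 ≤ bb p lam k - cf p lam n k := fun k => sub_nonneg.2 (cf_le hl n k)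
  have hes : Summable fun k => bb p lam k - cf p lam n k := h.sub hc
  rw [tsum_ac h hz, ff_eq, ← (summable_bz (bb_nonneg p lam) h hz).tsum_sub
    (summable_bz (cf_nonneg p lam n) hc hz)]
  have e1 : (fun k => ((bb p lam k : ℝ) : ℂ) * z ^ (k + 1) - ((cf p lam n k : ℝ) : ℂ) * z ^ (k + 1))
      = fun k => (((bb p lam k - cf p lam n k : ℝ)) : ℂ) * z ^ (k + 1) := by
    funext k
    push_cast
    ring
  rw [e1]
  calc ‖∑' k, (((bb p lam k - cf p lam n k : ℝ)) : ℂ) * z ^ (k + 1)‖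
      ≤ ∑' k, (bb p lam k - cf p lam n k) := by
        refine tsum_of_norm_bounded hes.hasSum fun k => ?_
        rw [norm_mul, Complex.norm_real, Real.norm_of_nonneg (he0 k), norm_pow]
        exact mul_le_of_le_one_right (he0 k) (pow_le_one₀ (norm_nonneg _) hz)
    _ = ∑' k, (bb p lam (k + n) - cf p lam n (k + n)) := by
        rw [← hes.sum_add_tsum_nat_add n]
        have : ∑ k ∈ range n, (bb p lam k - cf p lam n k) = 0 := by
          apply sum_eq_zero
          intro k hk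
          rw [cf_eq hl (by have := mem_range.1 hk; omega), sub_self]
        rw [this, zero_add]
    _ ≤ ∑' k, bb p lam (k + n) := by
        apply Summable.tsum_le_tsum _ ((summable_nat_add_iff n).2 hes)
          ((summable_nat_add_iff n).2 h)
        intro k
        linarith [cf_nonneg p lam n (k + n)]

theorem ff_deriv (p lam : ℕ → ℕ) (n : ℕ) (z : ℂ) :
    HasDerivAt (ff p lam n) (∏ m ∈ range n, (1 + z ^ (lam m)) ^ (p m)) z := by
  have h1 : HasDerivAt (ff p lam n) (∑ k ∈ range ((FF p lam n).natDegree + 1),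
      ((cf p lam n k : ℝ) : ℂ) * (((k + 1 : ℕ) : ℂ) * z ^ k)) z := by
    unfold ff
    apply HasDerivAt.fun_sum
    intro k _
    exact (hasDerivAt_pow (k + 1) z).const_mul _
  convert h1 using 1
  have h2 : aeval z (FF p lam n) = ∏ m ∈ range n, (1 + z ^ (lam m)) ^ (p m) := by
    unfold FF
    rw [map_prod]
    simp
  rw [← h2, aeval_eq_sum_range]
  refine sum_congr rfl fun k _ => ?_
  have hk : ((k : ℂ) + 1) ≠ 0 := by exact_mod_cast (Nat.succ_ne_zero k)
  rw [Algebra.smul_def]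
  unfold cf
  push_cast
  field_simp
  simp [mul_comm]

theorem one_sub_ge {x r : ℝ} (hx0 : 0 ≤ x) (hx : x ≤ r) (hr : r < 1) :
    Real.exp (-(x / (1 - r))) ≤ 1 - x := by
  have h1 : 0 < 1 - x := by linarith
  have h2 : x / (1 - x) ≤ x / (1 - r) :=
    div_le_div_of_nonneg_left hx0 (by linarith) (by linarith)
  calc Real.exp (-(x / (1 - r))) ≤ Real.exp (-(x / (1 - x))) := Real.exp_le_exp.2 (by linarith)
    _ ≤ 1 - x := by
        rw [Real.exp_neg, inv_le_comm₀ (Real.exp_pos _) h1]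
        have := Real.add_one_le_exp (x / (1 - x))
        calc (1 - x)⁻¹ = x / (1 - x) + 1 := by field_simp; ring
          _ ≤ _ := this

theorem summable_px {p lam : ℕ → ℕ} (hpl : ∀ m, p m ≤ lam m ∧ m ≤ lam m) {r : ℝ} (hr0 : 0 ≤ r)
    (hr : r < 1) : Summable fun m => (p m : ℝ) * r ^ (lam m) := by
  set q := Real.sqrt r with hq
  have hq0 : 0 ≤ q := Real.sqrt_nonneg r
  have hq1 : q < 1 := by
    rw [hq, Real.sqrt_lt' one_pos]
    simpa using hr
  have hqq : r = q * q := (Real.mul_self_sqrt hr0).symm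
  have ht : Tendsto (fun k : ℕ => (k : ℝ) * q ^ k) atTop (𝓝 0) :=
    tendsto_self_mul_const_pow_of_lt_one hq0 hq1
  obtain ⟨C, hC⟩ := ht.bddAbove_range
  have hC' : ∀ k : ℕ, (k : ℝ) * q ^ k ≤ C := fun k => hC ⟨k, rfl⟩
  refine Summable.of_nonneg_of_le (fun m => by positivity) (fun m => ?_)
    ((summable_geometric_of_lt_one hq0 hq1).mul_left C)
  have h1 : (p m : ℝ) ≤ lam m := by exact_mod_cast (hpl m).1
  calc (p m : ℝ) * r ^ (lam m) ≤ lam m * r ^ (lam m) := by gcongr
    _ = (lam m * q ^ (lam m)) * q ^ (lam m) := by rw [hqq, mul_pow]; ring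
    _ ≤ C * q ^ m := by
        apply mul_le_mul (hC' _) (pow_le_pow_of_le_one hq0 hq1.le (hpl m).2) (by positivity)
        exact le_trans (by positivity) (hC' 0)

theorem prod_ge {p lam : ℕ → ℕ} (hpl : ∀ m, p m ≤ lam m ∧ m ≤ lam m) (hlam : ∀ m, 0 < lam m)
    {z : ℂ} (hz : ‖z‖ < 1) : ∃ c : ℝ, 0 < c ∧ ∀ n,
      c ≤ ‖∏ m ∈ range n, (1 + z ^ (lam m)) ^ (p m)‖ := by
  set r := ‖z‖ with hr
  have hr0 : 0 ≤ r := norm_nonneg _
  have hs := summable_px hpl hr0 hz
  refine ⟨Real.exp (-((∑' m, (p m : ℝ) * r ^ (lam m)) / (1 - r))), Real.exp_pos _, fun n => ?_⟩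
  rw [norm_prod]
  calc Real.exp (-((∑' m, (p m : ℝ) * r ^ (lam m)) / (1 - r)))
      ≤ Real.exp (∑ m ∈ range n, -((p m : ℝ) * r ^ (lam m) / (1 - r))) := by
        apply Real.exp_le_exp.2
        rw [sum_neg_distrib, ← sum_div]
        have : ∑ m ∈ range n, (p m : ℝ) * r ^ (lam m) ≤ ∑' m, (p m : ℝ) * r ^ (lam m) :=
          hs.sum_le_tsum _ fun m _ => by positivity
        have h1 : 0 < 1 - r := by linarith
        apply neg_le_neg
        gcongr
    _ = ∏ m ∈ range n, Real.exp (-((p m : ℝ) * r ^ (lam m) / (1 - r))) := Real.exp_sum _ _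
    _ ≤ ∏ m ∈ range n, ‖(1 + z ^ (lam m)) ^ (p m)‖ := by
        apply prod_le_prod (fun m _ => (Real.exp_pos _).le)
        intro m _
        have hx : r ^ (lam m) ≤ r := by
          calc r ^ (lam m) ≤ r ^ 1 := pow_le_pow_of_le_one hr0 hz.le (hlam m)
            _ = r := pow_one r
        have h1 : Real.exp (-(r ^ (lam m) / (1 - r))) ≤ ‖1 + z ^ (lam m)‖ := by
          refine (one_sub_ge (by positivity) hx hz).trans ?_
          have h2 := norm_sub_norm_le (1 : ℂ) (-(z ^ (lam m)))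
          rw [norm_one, norm_neg, norm_pow, sub_neg_eq_add] at h2
          exact h2
        have h2 : Real.exp (-((p m : ℝ) * r ^ (lam m) / (1 - r))) =
            Real.exp (-(r ^ (lam m) / (1 - r))) ^ (p m) := by
          rw [← Real.exp_nat_mul]
          congr 1
          ring
        rw [h2, norm_pow]
        gcongr

theorem lemmaA : LemmaA := by
  intro p lam h1 h2 S hS
  have hl : ∀ m, m ≤ lam m := fun m => (h2 m).2
  have hlam : ∀ m, 0 < lam m := fun m => lt_of_le_of_lt (Nat.zero_le _) (h1 m)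
  have hsum := summable_bb hl hS
  have htail : Tendsto (fun n => ∑' k, bb p lam (k + n)) atTop (𝓝 0) :=
    tendsto_sum_nat_add (bb p lam)
  have hunif : ∀ ε : ℝ, 0 < ε → ∃ N : ℕ, ∀ n, N ≤ n → ∀ z : ℂ, ‖z‖ ≤ 1 →
      ‖(∑' k, ac p lam k * z ^ k) - ff p lam n z‖ ≤ ε := by
    intro ε hε
    obtain ⟨N, hN⟩ := eventually_atTop.1 (htail.eventually_le_const hε)
    exact ⟨N, fun n hn z hz => (unif hl hsum n hz).trans (hN n hn)⟩
  refine ⟨ac p lam, summable_ac hsum, ?_, hunif⟩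
  intro z hz
  obtain ⟨c, hc, hge⟩ := prod_ge h2 hlam hz
  have htl : TendstoLocallyUniformlyOn (fun n => ff p lam n)
      (fun w : ℂ => ∑' n, ac p lam n * w ^ n) atTop (Metric.ball (0 : ℂ) 1) := by
    apply TendstoUniformlyOn.tendstoLocallyUniformlyOn
    rw [Metric.tendstoUniformlyOn_iff]
    intro ε hε
    obtain ⟨N, hN⟩ := hunif (ε / 2) (by positivity)
    filter_upwards [eventually_ge_atTop N] with n hn w hw
    rw [mem_ball_zero_iff] at hw
    rw [dist_eq_norm]
    exact lt_of_le_of_lt (hN n hn w hw.le) (by linarith)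
  have hd := htl.deriv (Eventually.of_forall fun n w _ =>
    (ff_deriv p lam n w).differentiableAt.differentiableWithinAt) Metric.isOpen_ball
  have hd2 : Tendsto (fun n => deriv (ff p lam n) z) atTop
      (𝓝 (deriv (fun w : ℂ => ∑' n, ac p lam n * w ^ n) z)) :=
    hd.tendsto_at (by rw [mem_ball_zero_iff]; exact hz)
  have hn : c ≤ ‖deriv (fun w : ℂ => ∑' n, ac p lam n * w ^ n) z‖ := by
    apply ge_of_tendsto' hd2.norm
    intro n
    rw [(ff_deriv p lam n z).deriv]
    exact hge n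
  intro h0
  rw [h0, norm_zero] at hn
  linarith

end Pool.Agent.W5h30.PA
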