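import Pool.Agent.W5h30.PA.Defs

/-!
# Lemma C: the parameters
-/

set_option autoImplicit false

namespace Pool.Agent.W5h30.PA

open Finset Polynomial

theorem aa_succ (n : ℕ) : aa (n + 1) = aa n + pp n := sum_range_succ _ _

theorem pp_succ (n : ℕ) : pp (n + 1) = 2 * pp n := by
  unfold pp
  rw [show n + 1 + 12 = (n + 12) + 1 by ring, pow_succ]
  ring

theorem pp_pos (n : ℕ) : 0 < pp n := by unfold pp; positivity

theorem pp_ge (n : ℕ) : 4096 * (n + 1) ≤ pp n := by
  induction n with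
  | zero => simp [pp]
  | succ n ih => rw [pp_succ]; omega

theorem ll_pos (n : ℕ) : 0 < ll n := by unfold ll; positivity

theorem PL_nat (n : ℕ) : pp n * ll n = 2 ^ (aa n + pp n + 1) * (n + 8) ^ 2 := by
  have h := pp_ge n
  unfold ll
  rw [← mul_assoc]
  congr 1
  show 2 ^ (n + 12) * 2 ^ (aa n + pp n + 1 - (n + 12)) = 2 ^ (aa n + pp n + 1)
  rw [← pow_add]
  congr 1
  omega

theorem PL (n : ℕ) : (pp n : ℝ) * ll n = 2 ^ (aa n + pp n + 1) * ((n : ℝ) + 8) ^ 2 := by
  have := PL_nat n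
  exact_mod_cast this

theorem ll_succ (n : ℕ) : 2 ^ (2 * pp n - 1) * ll n ≤ ll (n + 1) := by
  have h := pp_ge n
  unfold ll
  rw [← mul_assoc, ← pow_add]
  apply Nat.mul_le_mul
  · apply Nat.pow_le_pow_right (by norm_num)
    rw [aa_succ, pp_succ]
    omega
  · exact Nat.pow_le_pow_left (by omega) 2

theorem ll_ge (n : ℕ) : 2 ^ 52 ≤ ll n := by
  refine le_trans ?_ (Nat.le_mul_of_pos_right _ (by positivity))
  apply Nat.pow_le_pow_right (by norm_num)
  have := pp_ge n
  omega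

theorem c1 (n : ℕ) : (∑ m ∈ range n, pp m * ll m + 1) * (2 ^ (n + 40) * pp n) ≤ ll n := by
  induction n with
  | zero =>
    calc (∑ m ∈ range 0, pp m * ll m + 1) * (2 ^ (0 + 40) * pp 0) = 2 ^ 52 := by simp [pp]
      _ ≤ ll 0 := ll_ge 0
  | succ n ih =>
    have hD : ∑ m ∈ range n, pp m * ll m + 1 ≤ ll n := by
      refine le_trans (Nat.le_mul_of_pos_right _ ?_) ih
      have := pp_pos n
      positivity
    have h1 : ∑ m ∈ range (n + 1), pp m * ll m + 1 ≤ 2 * pp n * ll n := by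
      rw [sum_range_succ]
      have h2 : ll n ≤ pp n * ll n := Nat.le_mul_of_pos_left _ (pp_pos n)
      nlinarith
    have hp : pp n = 2 ^ (n + 12) := rfl
    have hp1 : pp (n + 1) = 2 ^ (n + 13) := rfl
    calc (∑ m ∈ range (n + 1), pp m * ll m + 1) * (2 ^ (n + 1 + 40) * pp (n + 1))
        ≤ (2 * pp n * ll n) * (2 ^ (n + 1 + 40) * pp (n + 1)) := Nat.mul_le_mul_right _ h1
      _ = 2 ^ (3 * n + 67) * ll n := by
          rw [hp1, hp]
          have : 2 ^ (3 * n + 67) = 2 * 2 ^ (n + 12) * (2 ^ (n + 1 + 40) * 2 ^ (n + 13)) := by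
            rw [← pow_succ', ← pow_add, ← pow_add]
            congr 1
            ring
          rw [this]
          ring
      _ ≤ 2 ^ (2 * pp n - 1) * ll n := by
          apply Nat.mul_le_mul_right
          apply Nat.pow_le_pow_right (by norm_num)
          have := pp_ge n
          omega
      _ ≤ ll (n + 1) := ll_succ n

theorem c2 (m : ℕ) : pp m ≤ ll m ∧ m ≤ ll m := by
  have h1 : pp m ≤ ll m := by
    refine le_trans ?_ (c1 m)
    calc pp m ≤ 2 ^ (m + 40) * pp m := Nat.le_mul_of_pos_left _ (by positivity)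
      _ ≤ _ := Nat.le_mul_of_pos_left _ (by positivity)
  have h2 := pp_ge m
  exact ⟨h1, by omega⟩

theorem J_eq (f : ℝ[X]) : ∫ x in (0 : ℝ)..1, f.eval x =
    ∑ k ∈ range (f.natDegree + 1), f.coeff k / ((k : ℝ) + 1) := by
  simp_rw [eval_eq_sum_range]
  rw [intervalIntegral.integral_finsetSum]
  · refine sum_congr rfl fun k _ => ?_
    rw [intervalIntegral.integral_const_mul, integral_pow]
    simp
    ring
  · intro k _
    apply Continuous.intervalIntegrable
    fun_prop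

theorem FF_eval (p lam : ℕ → ℕ) (n : ℕ) (x : ℝ) :
    (FF p lam n).eval x = ∏ m ∈ range n, (1 + x ^ (lam m)) ^ (p m) := by
  unfold FF
  rw [eval_prod]
  simp

theorem FF_eval_le (p lam : ℕ → ℕ) (n : ℕ) {x : ℝ} (h0 : 0 ≤ x) (h1 : x ≤ 1) :
    (FF p lam n).eval x ≤ 2 ^ (∑ m ∈ range n, p m) := by
  rw [FF_eval, ← prod_pow_eq_pow_sum]
  apply prod_le_prod
  · intro m _
    positivity
  · intro m _
    have : x ^ (lam m) ≤ 1 := pow_le_one₀ h0 h1
    gcongr
    linarith

theorem binom_sum (L P : ℕ) (hL : 0 < L) (hP : 0 < P) :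
    ∫ x in (0 : ℝ)..1, ((1 + x ^ L) ^ P - 1) ≤ 2 ^ (P + 2) / ((P : ℝ) * L) := by
  have hL' : (0 : ℝ) < L := by exact_mod_cast hL
  have hP' : (0 : ℝ) < P := by exact_mod_cast hP
  have e1 : ∀ x : ℝ, (1 + x ^ L) ^ P - 1 =
      ∑ j ∈ range P, (P.choose (j + 1) : ℝ) * x ^ (L * (j + 1)) := by
    intro x
    rw [add_comm (1 : ℝ), add_pow, sum_range_succ']
    simp only [one_pow, mul_one, pow_zero, Nat.choose_zero_right, Nat.cast_one, add_sub_cancel_right]
    refine sum_congr rfl fun j _ => ?_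
    rw [← pow_mul]
    ring
  simp_rw [e1]
  rw [intervalIntegral.integral_finsetSum]
  · have h1 : ∀ j ∈ range P, ∫ x in (0 : ℝ)..1, (P.choose (j + 1) : ℝ) * x ^ (L * (j + 1)) ≤
        2 / (L * (P + 1)) * ((P + 1).choose (j + 2) : ℝ) := by
      intro j _
      rw [intervalIntegral.integral_const_mul, integral_pow]
      have hc : ((P : ℝ) + 1) * (P.choose (j + 1) : ℝ) =
          ((P + 1).choose (j + 2) : ℝ) * ((j : ℝ) + 2) := by
        have := Nat.add_one_mul_choose_eq P (j + 1)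
        have h2 : (((P + 1) * P.choose (j + 1) : ℕ) : ℝ) =
            (((P + 1).choose (j + 1 + 1) * (j + 1 + 1) : ℕ) : ℝ) := by exact_mod_cast this
        push_cast at h2
        rw [h2]
        ring
      have hc2 : (P.choose (j + 1) : ℝ) =
          ((P + 1).choose (j + 2) : ℝ) * ((j : ℝ) + 2) / ((P : ℝ) + 1) := by
        rw [eq_div_iff (by positivity)]
        linarith
      rw [hc2]
      have h3 : (1 ^ (L * (j + 1) + 1) - 0 ^ (L * (j + 1) + 1)) / (((L * (j + 1) : ℕ) : ℝ) + 1) ≤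
          2 / (L * ((j : ℝ) + 2)) := by
        rw [one_pow, zero_pow (by omega), sub_zero, div_le_div_iff₀ (by positivity) (by positivity)]
        push_cast
        nlinarith [(Nat.cast_nonneg j : (0 : ℝ) ≤ j)]
      calc _ ≤ ((P + 1).choose (j + 2) : ℝ) * ((j : ℝ) + 2) / ((P : ℝ) + 1) *
            (2 / (L * ((j : ℝ) + 2))) := by gcongr
        _ = _ := by field_simp
    calc _ ≤ ∑ j ∈ range P, 2 / (L * ((P : ℝ) + 1)) * ((P + 1).choose (j + 2) : ℝ) :=
          sum_le_sum h1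
      _ = 2 / (L * ((P : ℝ) + 1)) * ∑ j ∈ range P, ((P + 1).choose (j + 2) : ℝ) := by
          rw [mul_sum]
      _ ≤ 2 / (L * ((P : ℝ) + 1)) * 2 ^ (P + 1) := by
          gcongr
          have h2 : ∑ i ∈ range (P + 2), (P + 1).choose i = 2 ^ (P + 1) :=
            Nat.sum_range_choose (P + 1)
          have h3 : ∑ j ∈ range P, (P + 1).choose (j + 2) ≤ 2 ^ (P + 1) := by
            have e : ∑ j ∈ range P, (P + 1).choose (j + 2) =
              ∑ j ∈ range P, (P + 1).choose (j + 1 + 1) := rfl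
            rw [← h2, sum_range_succ', sum_range_succ', e]
            omega
          exact_mod_cast h3
      _ ≤ 2 ^ (P + 2) / ((P : ℝ) * L) := by
          rw [div_mul_eq_mul_div, div_le_div_iff₀ (by positivity) (by positivity)]
          have : (2 : ℝ) ^ (P + 2) = 2 * 2 ^ (P + 1) := by ring
          rw [this]
          have h4 : (0 : ℝ) < 2 * 2 ^ (P + 1) := by positivity
          nlinarith [mul_pos h4 hL']
  · intro j _
    apply Continuous.intervalIntegrable
    fun_prop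

theorem FF_step (n : ℕ) : ∫ x in (0 : ℝ)..1, (FF pp ll (n + 1)).eval x ≤
    (∫ x in (0 : ℝ)..1, (FF pp ll n).eval x) + 2 / ((n : ℝ) + 8) ^ 2 := by
  have hc : ∀ f : ℝ[X], IntervalIntegrable (fun x : ℝ => f.eval x) MeasureTheory.volume 0 1 :=
    fun f => f.continuous.intervalIntegrable _ _
  have hg : Continuous fun x : ℝ => 2 ^ (aa n) * ((1 + x ^ (ll n)) ^ (pp n) - 1) := by fun_prop
  have h1 : ∫ x in (0 : ℝ)..1, (FF pp ll (n + 1)).eval x ≤
      ∫ x in (0 : ℝ)..1, ((FF pp ll n).eval x +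
        2 ^ (aa n) * ((1 + x ^ (ll n)) ^ (pp n) - 1)) := by
    apply intervalIntegral.integral_mono_on zero_le_one (hc _)
      ((hc _).add (hg.intervalIntegrable _ _))
    intro x hx
    have h2 : (FF pp ll (n + 1)).eval x = (FF pp ll n).eval x * (1 + x ^ (ll n)) ^ (pp n) := by
      rw [FF_eval, FF_eval, prod_range_succ]
    have h3 : (FF pp ll n).eval x ≤ 2 ^ (aa n) := FF_eval_le _ _ _ hx.1 hx.2
    have h4 : (1 : ℝ) ≤ (1 + x ^ (ll n)) ^ (pp n) := by
      apply one_le_pow₀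
      have := pow_nonneg hx.1 (ll n)
      linarith
    rw [h2]
    nlinarith
  refine h1.trans ?_
  rw [intervalIntegral.integral_add (hc _) (hg.intervalIntegrable _ _),
    intervalIntegral.integral_const_mul]
  have h5 := binom_sum (ll n) (pp n) (ll_pos n) (pp_pos n)
  rw [PL] at h5
  have h6 : (2 : ℝ) ^ (aa n) * (∫ x in (0 : ℝ)..1, ((1 + x ^ (ll n)) ^ (pp n) - 1)) ≤
      2 ^ (aa n) * (2 ^ (pp n + 2) / (2 ^ (aa n + pp n + 1) * ((n : ℝ) + 8) ^ 2)) := by
    gcongr
  have h7 : (2 : ℝ) ^ (aa n) * (2 ^ (pp n + 2) / (2 ^ (aa n + pp n + 1) * ((n : ℝ) + 8) ^ 2)) =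
      2 / ((n : ℝ) + 8) ^ 2 := by
    rw [pow_add, pow_add, pow_add]
    field_simp
  rw [h7] at h6
  linarith

theorem J_le (n : ℕ) : ∫ x in (0 : ℝ)..1, (FF pp ll n).eval x ≤
    1 + 2 / 7 - 2 / ((n : ℝ) + 7) := by
  induction n with
  | zero => simp [FF]
  | succ n ih =>
    refine (FF_step n).trans ?_
    have h1 : 2 / ((n : ℝ) + 8) ^ 2 ≤ 2 / ((n : ℝ) + 7) - 2 / ((n : ℝ) + 8) := by
      rw [div_sub_div _ _ (by positivity) (by positivity),
        div_le_div_iff₀ (by positivity) (by positivity)]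
      nlinarith [(Nat.cast_nonneg n : (0 : ℝ) ≤ n)]
    push_cast
    have e : (n : ℝ) + 1 + 7 = n + 8 := by ring
    rw [e]
    linarith

theorem lemmaC : LemmaC := by
  refine ⟨c1, c2, fun n => ?_⟩
  have h := J_le n
  rw [J_eq] at h
  unfold cf
  have : 0 < 2 / ((n : ℝ) + 7) := by positivity
  linarith

end Pool.Agent.W5h30.PA
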