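import Mathlib

/-!
# Choice of the angle (helper30)
-/

set_option autoImplicit false

namespace Pool.Agent.W5h30.PA

open Complex
open scoped Real

lemma one_add_exp (θ : ℝ) : 1 + exp (θ * I) = ((2 * Real.cos (θ / 2) : ℝ) : ℂ) * exp ((θ / 2 : ℝ) * I) := by
  have h1 : (2 : ℂ) * Complex.cos ((θ / 2 : ℝ) : ℂ) = exp (((θ / 2 : ℝ) : ℂ) * I) + exp (-((θ / 2 : ℝ) : ℂ) * I) :=
    Complex.two_cos _
  have h2 : exp (((θ / 2 : ℝ) : ℂ) * I) * exp (((θ / 2 : ℝ) : ℂ) * I) = exp (θ * I) := by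
    rw [← exp_add]; congr 1; push_cast; ring
  have h3 : exp (-((θ / 2 : ℝ) : ℂ) * I) * exp (((θ / 2 : ℝ) : ℂ) * I) = 1 := by
    rw [← exp_add]; simp
  rw [ofReal_mul, ofReal_cos, ofReal_ofNat, h1, add_mul, h2, h3]
  ring

lemma choose_theta (p : ℕ) (hp : 4096 ≤ p) (c ω : ℂ) (hc : c ≠ 0) (hω : ‖ω‖ = 1) :
    ∃ θ : ℝ, |θ| ≤ 2 * π / (p - 1) ∧
      c * ((1 + exp (θ * I)) ^ (p + 1) * exp (-(θ * I)) / (I * p)) =
        ((‖c‖ * (2 * Real.cos (θ / 2)) ^ (p + 1) / p : ℝ) : ℂ) * ω := by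
  have hp' : (4096 : ℝ) ≤ p := by exact_mod_cast hp
  have hcn : (‖c‖ : ℝ) ≠ 0 := norm_ne_zero_iff.2 hc
  have hcn' : (‖c‖ : ℂ) ≠ 0 := by exact_mod_cast hcn
  set u : ℂ := I * ω * (starRingEnd ℂ) c / ‖c‖ with hu
  have hun : ‖u‖ = 1 := by
    rw [hu, norm_div, norm_mul, norm_mul, norm_I, hω, RCLike.norm_conj]
    simp [hcn]
  have hexp : exp (arg u * I) = u := by
    have := Complex.norm_mul_exp_arg_mul_I u
    rw [hun] at this
    simpa using this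
  have hp1 : (0 : ℝ) < p - 1 := by linarith
  have hp0' : (p : ℂ) ≠ 0 := by
    have : p ≠ 0 := by omega
    exact_mod_cast this
  refine ⟨2 * arg u / (p - 1), ?_, ?_⟩
  · rw [abs_div, abs_mul, abs_of_pos hp1, abs_of_pos (by norm_num : (0 : ℝ) < 2)]
    gcongr
    exact Complex.abs_arg_le_pi u
  · set θ : ℝ := 2 * arg u / (p - 1) with hθ
    have hθ' : (p - 1) * (θ / 2) = arg u := by
      rw [hθ]; field_simp
    rw [one_add_exp, mul_pow, ← exp_nat_mul]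
    have h1 : exp (((p + 1 : ℕ) : ℂ) * ((θ / 2 : ℝ) * I)) * exp (-(θ * I)) = u := by
      rw [← exp_add, ← hexp, ← hθ']
      congr 1
      push_cast
      ring
    have h2 : c * (starRingEnd ℂ) c = (‖c‖ : ℂ) ^ 2 := by
      rw [Complex.mul_conj, Complex.normSq_eq_norm_sq]
      push_cast
      ring
    rw [mul_assoc, h1]
    have h3 : c * u = I * ω * ‖c‖ := by
      rw [hu]
      field_simp
      linear_combination ω * h2
    have h4 : c * (((2 * Real.cos (θ / 2) : ℝ) : ℂ) ^ (p + 1) * u / (I * p)) =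
        ((2 * Real.cos (θ / 2) : ℝ) : ℂ) ^ (p + 1) * (c * u) / (I * p) := by ring
    rw [h4, h3]
    push_cast
    field_simp

lemma cos_pow_low (n : ℕ) (x : ℝ) (hx : |x| ≤ 1) : 1 - n * (x ^ 2 / 2) ≤ Real.cos x ^ n := by
  have h1 := Real.one_sub_sq_div_two_le_cos (x := x)
  have hx2 : x ^ 2 ≤ 1 := by
    rw [← sq_abs]; exact pow_le_one₀ (abs_nonneg _) hx
  have h2 : 1 + (n : ℝ) * (-(x ^ 2 / 2)) ≤ (1 + -(x ^ 2 / 2)) ^ n :=
    one_add_mul_le_pow (by linarith) n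
  calc 1 - n * (x ^ 2 / 2) = 1 + (n : ℝ) * (-(x ^ 2 / 2)) := by ring
    _ ≤ (1 + -(x ^ 2 / 2)) ^ n := h2
    _ ≤ Real.cos x ^ n := by
      apply pow_le_pow_left₀ (by linarith)
      linarith

lemma theta_bounds (p : ℕ) (hp : 4096 ≤ p) (θ : ℝ) (hθ : |θ| ≤ 2 * π / (p - 1)) :
    |θ| ≤ π ∧ 0 < Real.cos (θ / 2) ∧ 1 - 1 / 800 ≤ Real.cos (θ / 2) ^ (p + 1) ∧
      1 - 10 / (p : ℝ) ≤ Real.cos (θ / 2) ^ p := by
  have hp' : (4096 : ℝ) ≤ p := by exact_mod_cast hp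
  have hp1 : (0 : ℝ) < p - 1 := by linarith
  have hpi := Real.pi_pos
  have h4 : π < 3.15 := Real.pi_lt_d2
  have hx : |θ / 2| ≤ π / (p - 1) := by
    rw [abs_div, abs_of_pos (by norm_num : (0 : ℝ) < 2)]
    rw [div_le_iff₀ (by norm_num)]
    calc |θ| ≤ 2 * π / (p - 1) := hθ
      _ = π / (p - 1) * 2 := by ring
  have hx1 : |θ / 2| ≤ 1 := by
    refine hx.trans ?_
    rw [div_le_one hp1]
    linarith
  have hx2 : (θ / 2) ^ 2 ≤ π ^ 2 / (p - 1) ^ 2 := by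
    rw [← sq_abs, ← div_pow]
    exact pow_le_pow_left₀ (abs_nonneg _) hx 2
  have hpi2 : π ^ 2 ≤ 9.93 := by nlinarith
  have hx3 : (θ / 2) ^ 2 ≤ 9.93 / (p - 1) ^ 2 := by
    refine hx2.trans ?_
    gcongr
  have hx2' : (θ / 2) ^ 2 ≤ 1 := by
    rw [← sq_abs]; exact pow_le_one₀ (abs_nonneg _) hx1
  refine ⟨?_, ?_, ?_, ?_⟩
  · refine hθ.trans ?_
    rw [div_le_iff₀ hp1]
    nlinarith
  · have := Real.one_sub_sq_div_two_le_cos (x := θ / 2)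
    linarith
  · refine le_trans ?_ (cos_pow_low (p + 1) (θ / 2) hx1)
    have : ((p + 1 : ℕ) : ℝ) * ((θ / 2) ^ 2 / 2) ≤ 1 / 800 := by
      calc ((p + 1 : ℕ) : ℝ) * ((θ / 2) ^ 2 / 2) ≤ ((p + 1 : ℕ) : ℝ) * (9.93 / (p - 1) ^ 2 / 2) := by gcongr
        _ = ((p : ℝ) + 1) * 9.93 / 2 / ((p : ℝ) - 1) ^ 2 := by push_cast; ring
        _ ≤ 1 / 800 := by
          rw [div_le_iff₀ (by positivity)]
          nlinarith
    linarith
  · refine le_trans ?_ (cos_pow_low p (θ / 2) hx1)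
    have : (p : ℝ) * ((θ / 2) ^ 2 / 2) ≤ 10 / p := by
      calc (p : ℝ) * ((θ / 2) ^ 2 / 2) ≤ (p : ℝ) * (9.93 / (p - 1) ^ 2 / 2) := by gcongr
        _ ≤ 10 / (p : ℝ) := by
          rw [le_div_iff₀ (by linarith)]
          have : (p : ℝ) * (9.93 / (p - 1) ^ 2 / 2) * p = 9.93 / 2 * p ^ 2 / (p - 1) ^ 2 := by ring
          rw [this, div_le_iff₀ (by positivity)]
          nlinarith
    linarith

end Pool.Agent.W5h30.PA
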