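import Mathlib
import Pool.Agent.W5h30.PA.Defs2
import Pool.Agent.W5h30.PA.Ker
import Pool.Agent.W5h30.PA.StepA

/-!
# The analytic step (helper30)
-/

set_option autoImplicit false

namespace Pool.Agent.W5h30.PA

open Complex MeasureTheory intervalIntegral
open scoped Real

theorem lemmaS : LemmaS := by
  intro p lam A D t0 h ω hp hA hD hlam hcont hbd hlip hω hh0
  have hp' : (4096 : ℝ) ≤ p := by exact_mod_cast hp
  have hpi := Real.pi_pos
  have hp0 : (0 : ℝ) < p := by linarith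
  have hlam0 : (0 : ℝ) < lam := by
    have : (0 : ℝ) < 2000 * D * p := by positivity
    linarith
  have hlamC : (lam : ℂ) ≠ 0 := by exact_mod_cast hlam0.ne'
  obtain ⟨θ, hθ, hθeq⟩ := choose_theta p hp (h t0) ω hh0 hω
  obtain ⟨hθ1, hθ2, hθ3, hθ4⟩ := theta_bounds p hp θ hθ
  set k : ℤ := ⌊(lam * t0 + π) / (2 * π)⌋ with hk
  set ts : ℝ := (2 * π * k - π) / lam with hts
  set t : ℝ := ts + (θ + π) / lam with ht
  have hlts : (lam : ℝ) * ts = 2 * π * k - π := by
    rw [hts]; field_simp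
  have hk1 : (k : ℝ) ≤ (lam * t0 + π) / (2 * π) := Int.floor_le _
  have hk2 : (lam * t0 + π) / (2 * π) < k + 1 := Int.lt_floor_add_one _
  rw [le_div_iff₀ (by positivity)] at hk1
  rw [div_lt_iff₀ (by positivity)] at hk2
  have htsd : |ts - t0| ≤ 2 * π / lam := by
    rw [le_div_iff₀ hlam0, ← abs_of_pos hlam0, ← abs_mul, abs_le]
    constructor <;> nlinarith
  have htts : |t - ts| ≤ 2 * π / lam := by
    rw [ht, add_sub_cancel_left, abs_div, abs_of_pos hlam0]
    gcongr
    rw [abs_le]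
    have := abs_le.1 hθ1
    constructor <;> linarith [this.1, this.2]
  have hper : ∀ φ : ℝ, exp ((((2 * π * k + φ : ℝ)) : ℂ) * I) = exp (φ * I) := by
    intro φ
    have : (((2 * π * k + φ : ℝ)) : ℂ) * I = φ * I + k * (2 * π * I) := by push_cast; ring
    rw [this, Complex.exp_add, Complex.exp_int_mul_two_pi_mul_I, mul_one]
  refine ⟨ts, t, ?_, htsd, ?_, ?_, ?_⟩
  · rw [hlts, sub_eq_add_neg, hper, ofReal_neg, neg_mul, exp_neg, exp_pi_mul_I]
    norm_num
  · calc |t - t0| = |(t - ts) + (ts - t0)| := by ring_nf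
      _ ≤ |t - ts| + |ts - t0| := abs_add_le _ _
      _ ≤ 4 * π / lam := by
        have : 4 * π / lam = 2 * π / lam + 2 * π / lam := by ring
        linarith
  · -- the integral
    set d : ℝ := ts + π / lam with hd
    have hcv : (∫ s in ts..t, h s * (1 + exp (((lam : ℝ) * s : ℝ) * I)) ^ p) =
        (lam : ℝ)⁻¹ • ∫ φ in (-π)..θ, h ((lam : ℝ)⁻¹ * φ + d) * (1 + exp (φ * I)) ^ p := by
      have h1 := intervalIntegral.integral_comp_mul_add (a := -π) (b := θ)
        (fun s => h s * (1 + exp (((lam : ℝ) * s : ℝ) * I)) ^ p) (inv_ne_zero hlam0.ne') d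
      have h2 : (lam : ℝ)⁻¹ * (-π) + d = ts := by rw [hd]; field_simp; ring
      have h3 : (lam : ℝ)⁻¹ * θ + d = t := by rw [hd, ht]; field_simp; ring
      rw [h2, h3, inv_inv] at h1
      have h4 : (∫ φ in (-π)..θ, h ((lam : ℝ)⁻¹ * φ + d) * (1 + exp (φ * I)) ^ p) =
          ∫ φ in (-π)..θ, h ((lam : ℝ)⁻¹ * φ + d) * (1 + exp (((lam : ℝ) * ((lam : ℝ)⁻¹ * φ + d) : ℝ) * I)) ^ p := by
        congr 1
        ext φ
        have : (lam : ℝ) * ((lam : ℝ)⁻¹ * φ + d) = 2 * π * k + φ := by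
          have : (lam : ℝ) * d = 2 * π * k := by
            rw [hd, mul_add, hlts]; field_simp; ring
          rw [mul_add, this]; field_simp; ring
        rw [this, hper]
      rw [h4, h1, smul_smul, inv_mul_cancel₀ hlam0.ne', one_smul]
    have hle : -π ≤ θ := (abs_le.1 hθ1).1
    have hle' : θ ≤ π := (abs_le.1 hθ1).2
    have hmain1 : ‖(∫ φ in (-π)..θ, h ((lam : ℝ)⁻¹ * φ + d) * (1 + exp (φ * I)) ^ p) -
        h t0 * ∫ φ in (-π)..θ, (1 + exp (φ * I)) ^ p‖ ≤ D * A * (4 * π / lam) * (2 ^ p / 8) := by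
      rw [← intervalIntegral.integral_const_mul, ← intervalIntegral.integral_sub
        (Continuous.intervalIntegrable (by fun_prop) _ _) (Continuous.intervalIntegrable (by fun_prop) _ _)]
      calc _ ≤ ∫ φ in (-π)..θ, ‖h ((lam : ℝ)⁻¹ * φ + d) * (1 + exp (φ * I)) ^ p - h t0 * (1 + exp (φ * I)) ^ p‖ :=
            intervalIntegral.norm_integral_le_integral_norm hle
        _ ≤ ∫ φ in (-π)..θ, D * A * (4 * π / lam) * ‖1 + exp (φ * I)‖ ^ p := by
            apply intervalIntegral.integral_mono_on hle (Continuous.intervalIntegrable (by fun_prop) _ _)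
              (Continuous.intervalIntegrable (by fun_prop) _ _)
            intro φ hφ
            rw [← sub_mul, norm_mul, norm_pow]
            gcongr
            refine (hlip _ _).trans ?_
            gcongr
            have e1 : (lam : ℝ)⁻¹ * φ + d - t0 = (ts - t0) + (φ + π) / lam := by rw [hd]; ring
            rw [e1]
            have e2 : |(φ + π) / (lam : ℝ)| ≤ 2 * π / lam := by
              rw [abs_div, abs_of_pos hlam0]
              gcongr
              rw [abs_le]
              constructor <;> linarith [hφ.1, hφ.2]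
            have e3 := abs_add_le (ts - t0) ((φ + π) / (lam : ℝ))
            have : 4 * π / lam = 2 * π / lam + 2 * π / lam := by ring
            linarith
        _ = D * A * (4 * π / lam) * ∫ φ in (-π)..θ, ‖1 + exp (φ * I)‖ ^ p := by
            rw [intervalIntegral.integral_const_mul]
        _ ≤ D * A * (4 * π / lam) * (2 ^ p / 8) := by
            gcongr
            refine le_trans ?_ (int_norm p hp)
            have hi : ∀ a b : ℝ, IntervalIntegrable (fun φ : ℝ => ‖1 + exp (φ * I)‖ ^ p) volume a b :=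
              fun a b => Continuous.intervalIntegrable (by fun_prop) a b
            rw [← intervalIntegral.integral_add_adjacent_intervals (hi (-π) θ) (hi θ π)]
            have : 0 ≤ ∫ φ in θ..π, ‖1 + exp (φ * I)‖ ^ p :=
              intervalIntegral.integral_nonneg hle' (fun u _ => by positivity)
            linarith
    have hB := lemB p hp θ hθ1
    have hmain2 : ‖h t0 * (∫ φ in (-π)..θ, (1 + exp (φ * I)) ^ p) -
        h t0 * ((1 + exp (θ * I)) ^ (p + 1) * exp (-(θ * I)) / (I * p))‖ ≤ A * (2 ^ p / 8 / p) := by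
      rw [← mul_sub, norm_mul]
      exact mul_le_mul (hbd t0) hB (norm_nonneg _) hA.le
    rw [hθeq] at hmain2
    have hmain3 : ‖((‖h t0‖ * (2 * Real.cos (θ / 2)) ^ (p + 1) / p : ℝ) : ℂ) * ω -
        ((‖h t0‖ * (2 ^ (p + 1) / p) : ℝ) : ℂ) * ω‖ ≤ A * (2 ^ (p + 1) / p) / 800 := by
      rw [← sub_mul, norm_mul, hω, mul_one, ← ofReal_sub, norm_real, Real.norm_eq_abs]
      have hc1 : Real.cos (θ / 2) ^ (p + 1) ≤ 1 := pow_le_one₀ hθ2.le (Real.cos_le_one _)
      have e : ‖h t0‖ * (2 * Real.cos (θ / 2)) ^ (p + 1) / p - ‖h t0‖ * (2 ^ (p + 1) / p) =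
          -((‖h t0‖ * (2 ^ (p + 1) / p)) * (1 - Real.cos (θ / 2) ^ (p + 1))) := by
        rw [mul_pow]; ring
      rw [e, abs_neg, abs_of_nonneg (mul_nonneg (by positivity) (by linarith))]
      have : A * (2 ^ (p + 1) / p) / 800 = (A * (2 ^ (p + 1) / p)) * (1 / 800) := by ring
      rw [this]
      apply mul_le_mul _ (by linarith) (by linarith) (by positivity)
      gcongr
      exact hbd t0
    rw [hcv]
    have e0 : (((‖h t0‖ * (2 ^ (p + 1) / (p * lam)) : ℝ)) : ℂ) * ω =
        (lam : ℝ)⁻¹ • ((((‖h t0‖ * (2 ^ (p + 1) / p) : ℝ)) : ℂ) * ω) := by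
      rw [real_smul]
      push_cast
      field_simp
    rw [e0, ← smul_sub, norm_smul, norm_inv, Real.norm_eq_abs, abs_of_pos hlam0]
    have hsum : ‖(∫ φ in (-π)..θ, h ((lam : ℝ)⁻¹ * φ + d) * (1 + exp (φ * I)) ^ p) -
        (((‖h t0‖ * (2 ^ (p + 1) / p) : ℝ)) : ℂ) * ω‖ ≤
        D * A * (4 * π / lam) * (2 ^ p / 8) + A * (2 ^ p / 8 / p) + A * (2 ^ (p + 1) / p) / 800 := by
      have := norm_sub_le_norm_sub_add_norm_sub
        (∫ φ in (-π)..θ, h ((lam : ℝ)⁻¹ * φ + d) * (1 + exp (φ * I)) ^ p)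
        (h t0 * ∫ φ in (-π)..θ, (1 + exp (φ * I)) ^ p)
        ((((‖h t0‖ * (2 ^ (p + 1) / p) : ℝ)) : ℂ) * ω)
      have h5 := norm_sub_le_norm_sub_add_norm_sub
        (h t0 * ∫ φ in (-π)..θ, (1 + exp (φ * I)) ^ p)
        (((‖h t0‖ * (2 * Real.cos (θ / 2)) ^ (p + 1) / p : ℝ) : ℂ) * ω)
        ((((‖h t0‖ * (2 ^ (p + 1) / p) : ℝ)) : ℂ) * ω)
      linarith
    have hfin : D * A * (4 * π / lam) * (2 ^ p / 8) + A * (2 ^ p / 8 / p) + A * (2 ^ (p + 1) / p) / 800 ≤
        A * (2 ^ (p + 1) / p) / 8 := by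
      have h4 : π < 3.15 := Real.pi_lt_d2
      have e1 : D * A * (4 * π / lam) * (2 ^ p / 8) ≤ A * (2 ^ p / p) * (1 / 1000) := by
        have : D * (4 * π / lam) * (1 / 8) ≤ 1 / p * (1 / 1000) := by
          have e2 : D * (4 * π / lam) * (1 / 8) = D * π / 2 / lam := by ring
          rw [e2, div_le_iff₀ hlam0]
          calc D * π / 2 ≤ D * 3.15 / 2 := by gcongr
            _ ≤ 2 * D := by linarith
            _ = 1 / p * (1 / 1000) * (2000 * D * p) := by field_simp; norm_num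
            _ ≤ 1 / p * (1 / 1000) * lam := by gcongr
        calc D * A * (4 * π / lam) * (2 ^ p / 8) = A * 2 ^ p * (D * (4 * π / lam) * (1 / 8)) := by ring
          _ ≤ A * 2 ^ p * (1 / p * (1 / 1000)) := by gcongr
          _ = A * (2 ^ p / p) * (1 / 1000) := by ring
      have e3 : A * (2 ^ (p + 1) / p) = 2 * (A * (2 ^ p / p)) := by rw [pow_succ]; ring
      have e4 : A * (2 ^ p / 8 / p) = A * (2 ^ p / p) / 8 := by ring
      have e5 : 0 ≤ A * (2 ^ p / (p : ℝ)) := by positivity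
      rw [e3, e4]
      linarith
    calc (lam : ℝ)⁻¹ * _ ≤ (lam : ℝ)⁻¹ * (A * (2 ^ (p + 1) / p) / 8) := by
          gcongr
          exact hsum.trans hfin
      _ = A * (2 ^ (p + 1) / (p * lam)) / 8 := by field_simp
  · have e1 : (lam : ℝ) * t = 2 * π * k + θ := by
      rw [ht, mul_add, hlts]; field_simp; ring
    rw [e1, hper, one_add_exp, norm_pow, norm_mul, norm_exp_ofReal_mul_I, mul_one, norm_real,
      Real.norm_eq_abs, abs_of_pos (by linarith), mul_pow]
    gcongr

end Pool.Agent.W5h30.PA
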